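import Pool.Agent.Run7.h862.AD.ELL

/-!
# The elliptic integral of the second kind
-/

set_option autoImplicit false

namespace Run7.h131.AD

open Run7.h862.AD

/-- **Elliptic functions and the elliptic integral of the second kind** (the proof of `t_ELL` of helper862, with a
third function `Z`, `Z' = w²`: `Z(x+y) = Z(x) + Z(y) + w(x) w(y) w(x+y)`). -/
theorem t_ELZ (a b : ℚ) (w Z : PS) (hw0 : ev w = 0) (hw1 : ev (D w) = 1)
    (hw : D (D w) = PowerSeries.C a * w + PowerSeries.C (2 * b) * w ^ 3) (hZ0 : ev Z = 0) (hZ : D Z = w ^ 2) :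
    ∃ N M, AddThm ![w, D w, Z] N M := by
  -- the first integral
  have hu : D w ^ 2 = 1 + PowerSeries.C a * w ^ 2 + PowerSeries.C b * w ^ 4 := by
    have hz : D w ^ 2 - (1 + PowerSeries.C a * w ^ 2 + PowerSeries.C b * w ^ 4) = 0 := by
      apply D_eq_zero
      · rw [D_sub, D_add, D_add, D_C_mul, D_C_mul, D_pow, D_pow, D_pow, D_one, hw, map_mul]
        have : (PowerSeries.C (2 : ℚ) : PS) = 2 := map_ofNat _ 2
        rw [this]
        push_cast
        ring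
      · have e : ∀ g h : PS, ev (g * h) = ev g * ev h := by intro g h; simp [ev]
        have e2 : ev (D w ^ 2 - (1 + PowerSeries.C a * w ^ 2 + PowerSeries.C b * w ^ 4))
            = ev (D w) ^ 2 - (1 + a * ev w ^ 2 + b * ev w ^ 4) := by simp [ev]
        rw [e2, hw0, hw1]; norm_num
    exact sub_eq_zero.mp hz
  set u : PS := D w with hudef
  -- names
  set w1 : PowerSeries PS := inX w with hw1d
  set u1 : PowerSeries PS := inX u with hu1d
  set w2 : PowerSeries PS := inY w with hw2d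
  set u2 : PowerSeries PS := inY u with hu2d
  set A : PowerSeries PS := PowerSeries.C (PowerSeries.C a) with hA
  set B : PowerSeries PS := PowerSeries.C (PowerSeries.C b) with hB
  have inXC : ∀ x : ℚ, inX (PowerSeries.C x) = PowerSeries.C (PowerSeries.C x) := by
    intro x; rw [inX_eq]; simp
  have hinX : ∀ g h : PS, inX (g * h) = inX g * inX h := by intro g h; simp [inX_eq]
  have hC2 : (PowerSeries.C (2 : ℚ) : PS) = 2 := map_ofNat _ 2
  have m2 : PowerSeries.map (PowerSeries.C : ℚ →+* PS) 2 = 2 := map_ofNat _ 2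
  have c2 : (PowerSeries.C (2 : PS) : PowerSeries PS) = 2 := map_ofNat _ 2
  have e1 : u1 ^ 2 = 1 + A * w1 ^ 2 + B * w1 ^ 4 := by
    have := congrArg inX hu
    simpa [inX_eq, hu1d, hw1d, hA, hB] using this
  have e2 : u2 ^ 2 = 1 + A * w2 ^ 2 + B * w2 ^ 4 := by
    have := congrArg inY hu
    simpa [inY, hu2d, hw2d, hA, hB] using this
  have dxw1 : dx w1 = u1 := dx_inX w
  have dyw2 : dy w2 = u2 := dy_inY w
  have dxw2 : dx w2 = 0 := dx_inY w
  have dyw1 : dy w1 = 0 := dy_inX w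
  have dxu2 : dx u2 = 0 := dx_inY u
  have dyu1 : dy u1 = 0 := dy_inX u
  have dxu1 : dx u1 = A * w1 + 2 * B * w1 ^ 3 := by
    rw [hu1d, dx_inX, hw, map_mul, hC2]
    simp [inX_eq, hw1d, hA, hB, m2]
  have dyu2 : dy u2 = A * w2 + 2 * B * w2 ^ 3 := by
    rw [hu2d, dy_inY, hw, map_mul, hC2]
    simp [inY, hw2d, hA, hB, c2]
  set δ : PowerSeries PS := 1 - B * (w1 * w1 * (w2 * w2)) with hδ
  have hccw1 : PowerSeries.constantCoeff w1 = 0 := by
    have := coeff_zero_inX w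
    rw [hw0] at this
    simpa using this
  have hccu1 : PowerSeries.constantCoeff u1 = 1 := by
    have := coeff_zero_inX u
    rw [hw1] at this
    simpa using this
  have hδ1 : PowerSeries.constantCoeff δ = ((1 : PSˣ) : PS) := by
    rw [hδ]; simp [hccw1]
  obtain ⟨δi, hδi⟩ : ∃ δi, δ * δi = 1 := ⟨_, PowerSeries.mul_invOfUnit δ 1 hδ1⟩
  set n : PowerSeries PS := w1 * u2 + w2 * u1 with hn
  set F : PowerSeries PS := n * δi with hF
  have hδF : δ * F = n := by rw [hF]; linear_combination n * hδi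
  have dxδ : dx δ = -(2 * B * w1 * u1 * w2 ^ 2) := by
    rw [hδ, dx_one_sub, hB, dx_C_mul, dx_mul, dx_mul, dx_mul, dxw1, dxw2]; ring
  have dyδ : dy δ = -(2 * B * w2 * u2 * w1 ^ 2) := by
    rw [hδ, dy_one_sub, hB, dy_CC_mul, dy_mul, dy_mul, dy_mul, dyw1, dyw2]; ring
  have dxn : dx n = u1 * u2 + w2 * (A * w1 + 2 * B * w1 ^ 3) := by
    rw [hn, dx_add, dx_mul, dx_mul, dxw1, dxw2, dxu1, dxu2]; ring
  have dyn : dy n = u1 * u2 + w1 * (A * w2 + 2 * B * w2 ^ 3) := by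
    rw [hn, dy_add, dy_mul, dy_mul, dyw1, dyw2, dyu1, dyu2]; ring
  have hx : δ * dx F + F * dx δ = dx n := by rw [← dx_mul, hδF]
  have hy : δ * dy F + F * dy δ = dy n := by rw [← dy_mul, hδF]
  set G : PowerSeries PS := δ * (u1 * u2 + w1 * (A * w2 + 2 * B * w2 ^ 3)) + 2 * B * w2 * u2 * w1 ^ 2 * n with hG
  have hx2 : δ ^ 2 * dx F = G := by
    have h3 : δ ^ 2 * dx F = δ * dx n - n * dx δ := by
      rw [← hx]; linear_combination (-(dx δ)) * hδF
    rw [h3, dxn, dxδ, hG, hn, hδ]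
    linear_combination (2 * B * w1 * w2 * w2 ^ 2) * e1 - (2 * B * w1 * w2 * w1 ^ 2) * e2
  have hy2 : δ ^ 2 * dy F = G := by
    have h3 : δ ^ 2 * dy F = δ * dy n - n * dy δ := by
      rw [← hy]; linear_combination (-(dy δ)) * hδF
    rw [h3, dyn, dyδ, hG]; ring
  have hxy : dx F = dy F := by
    have h3 : δ ^ 2 * dx F = δ ^ 2 * dy F := by rw [hx2, hy2]
    linear_combination δi ^ 2 * h3 + (-(dx F) * (1 + δ * δi) + dy F * (1 + δ * δi)) * hδi
  have hF0 : PowerSeries.coeff 0 F = w := by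
    have h3 := congrArg PowerSeries.constantCoeff hδF
    rw [map_mul, hδ1] at h3
    have h4 : PowerSeries.constantCoeff n = w := by
      rw [hn, map_add, map_mul, map_mul, hccw1, hccu1, hw2d, hu2d]
      simp [inY]
    rw [h4] at h3
    simpa using h3
  have hFt : F = tay w := by
    have := eq_tay F hxy
    rwa [hF0] at this
  have htu : tay u = dy F := by rw [hudef, tay_D, ← hFt]
  -- the function `Z`
  set z1 : PowerSeries PS := inX Z with hz1
  set z2 : PowerSeries PS := inY Z with hz2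
  have dxz1 : dx z1 = w1 ^ 2 := by
    rw [hz1, dx_inX, hZ, hw1d]; simp [inX_eq]
  have dyz2 : dy z2 = w2 ^ 2 := by
    rw [hz2, dy_inY, hZ, hw2d]; simp [inY]
  have dxz2 : dx z2 = 0 := dx_inY Z
  have dyz1 : dy z1 = 0 := dy_inX Z
  set K : PowerSeries PS := z1 + z2 + w1 * w2 * F with hK
  have hcross : u1 * w2 * F + w1 ^ 2 = w1 * u2 * F + w2 ^ 2 := by
    have h3 : δ * (u1 * w2 * F + w1 ^ 2) = δ * (w1 * u2 * F + w2 ^ 2) := by
      have h4 : δ * (u1 * w2 * F + w1 ^ 2) - δ * (w1 * u2 * F + w2 ^ 2)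
          = (u1 * w2 - w1 * u2) * (δ * F) + δ * (w1 ^ 2 - w2 ^ 2) := by ring
      rw [← sub_eq_zero, h4, hδF, hn, hδ]
      linear_combination w2 ^ 2 * e1 - w1 ^ 2 * e2
    linear_combination δi * h3 - (u1 * w2 * F + w1 ^ 2 - (w1 * u2 * F + w2 ^ 2)) * hδi
  have hKxy : dx K = dy K := by
    rw [hK, dx_add, dx_add, dx_mul (w1 * w2) F, dx_mul w1 w2, dy_add, dy_add, dy_mul (w1 * w2) F, dy_mul w1 w2,
      dxz1, dxz2, dyz1, dyz2, dxw1, dxw2, dyw1, dyw2, hxy]
    linear_combination hcross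
  have hK0 : PowerSeries.coeff 0 K = Z := by
    have h3 : PowerSeries.constantCoeff K = Z := by
      rw [hK, map_add, map_add, map_mul, map_mul, hccw1]
      have h5 := coeff_zero_inX Z
      rw [hZ0] at h5
      have h6 : PowerSeries.constantCoeff z1 = 0 := by simpa using h5
      rw [h6, hz2]
      simp [inY]
    simpa using h3
  have hKt : K = tay Z := by
    have := eq_tay K hKxy
    rwa [hK0] at this
  -- the polynomials
  let X0 : MvPolynomial (Fin 3 ⊕ Fin 3) ℚ := MvPolynomial.X (Sum.inl 0)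
  let X1 : MvPolynomial (Fin 3 ⊕ Fin 3) ℚ := MvPolynomial.X (Sum.inl 1)
  let X2 : MvPolynomial (Fin 3 ⊕ Fin 3) ℚ := MvPolynomial.X (Sum.inl 2)
  let Y0 : MvPolynomial (Fin 3 ⊕ Fin 3) ℚ := MvPolynomial.X (Sum.inr 0)
  let Y1 : MvPolynomial (Fin 3 ⊕ Fin 3) ℚ := MvPolynomial.X (Sum.inr 1)
  let Y2 : MvPolynomial (Fin 3 ⊕ Fin 3) ℚ := MvPolynomial.X (Sum.inr 2)
  let Md : MvPolynomial (Fin 3 ⊕ Fin 3) ℚ := 1 - MvPolynomial.C b * (X0 * X0 * (Y0 * Y0))
  let Nn : MvPolynomial (Fin 3 ⊕ Fin 3) ℚ := X0 * Y1 + Y0 * X1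
  let NG : MvPolynomial (Fin 3 ⊕ Fin 3) ℚ :=
    Md * (X1 * Y1 + X0 * (MvPolynomial.C a * Y0 + 2 * MvPolynomial.C b * Y0 ^ 3)) +
      2 * MvPolynomial.C b * Y0 * Y1 * X0 ^ 2 * Nn
  let NZ : MvPolynomial (Fin 3 ⊕ Fin 3) ℚ := Md * (X2 + Y2) + X0 * Y0 * Nn
  have vX0 : MvPolynomial.aeval (pt2 ![w, u, Z]) X0 = w1 := by simp [X0, pt2, hw1d]
  have vX1 : MvPolynomial.aeval (pt2 ![w, u, Z]) X1 = u1 := by simp [X1, pt2, hu1d]
  have vX2 : MvPolynomial.aeval (pt2 ![w, u, Z]) X2 = z1 := by simp [X2, pt2, hz1]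
  have vY0 : MvPolynomial.aeval (pt2 ![w, u, Z]) Y0 = w2 := by simp [Y0, pt2, hw2d]
  have vY1 : MvPolynomial.aeval (pt2 ![w, u, Z]) Y1 = u2 := by simp [Y1, pt2, hu2d]
  have vY2 : MvPolynomial.aeval (pt2 ![w, u, Z]) Y2 = z2 := by simp [Y2, pt2, hz2]
  have vC : ∀ x : ℚ, MvPolynomial.aeval (pt2 ![w, u, Z]) (MvPolynomial.C x : MvPolynomial (Fin 3 ⊕ Fin 3) ℚ)
      = PowerSeries.C (PowerSeries.C x) := by
    intro x; rw [MvPolynomial.aeval_C, algMap]
  have v2 : MvPolynomial.aeval (pt2 ![w, u, Z]) (2 : MvPolynomial (Fin 3 ⊕ Fin 3) ℚ) = 2 := map_ofNat _ 2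
  have vMd : MvPolynomial.aeval (pt2 ![w, u, Z]) Md = δ := by
    simp only [Md, map_sub, map_one, map_mul, vX0, vY0, vC, hδ, hB]
  have vNn : MvPolynomial.aeval (pt2 ![w, u, Z]) Nn = n := by
    simp only [Nn, map_add, map_mul, vX0, vY0, vX1, vY1, hn]
  have vNG : MvPolynomial.aeval (pt2 ![w, u, Z]) NG = G := by
    simp only [NG, map_add, map_mul, map_pow, vMd, vNn, vX0, vY0, vX1, vY1, vC, v2, hG, hA, hB]
  have vNZ : MvPolynomial.aeval (pt2 ![w, u, Z]) NZ = δ * (z1 + z2) + w1 * w2 * n := by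
    simp only [NZ, map_add, map_mul, vMd, vNn, vX0, vY0, vX2, vY2]
  have eMd : MvPolynomial.eval (pt0 ![w, u, Z]) Md = 1 := by
    simp [Md, X0, Y0, pt0, c0, hw0]
  refine ⟨![Nn, NG, NZ], ![Md, Md ^ 2, Md], ?_, ?_⟩
  · intro i
    fin_cases i
    · change MvPolynomial.eval (pt0 ![w, u, Z]) Md ≠ 0
      rw [eMd]; exact one_ne_zero
    · change MvPolynomial.eval (pt0 ![w, u, Z]) (Md ^ 2) ≠ 0
      rw [map_pow, eMd]; norm_num
    · change MvPolynomial.eval (pt0 ![w, u, Z]) Md ≠ 0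
      rw [eMd]; exact one_ne_zero
  · intro i
    fin_cases i
    · change MvPolynomial.aeval (pt2 ![w, u, Z]) Md * tay w = MvPolynomial.aeval (pt2 ![w, u, Z]) Nn
      rw [vMd, vNn, ← hFt, hδF]
    · change MvPolynomial.aeval (pt2 ![w, u, Z]) (Md ^ 2) * tay u = MvPolynomial.aeval (pt2 ![w, u, Z]) NG
      rw [map_pow, vMd, vNG, htu, hy2]
    · change MvPolynomial.aeval (pt2 ![w, u, Z]) Md * tay Z = MvPolynomial.aeval (pt2 ![w, u, Z]) NZ
      rw [vMd, vNZ, ← hKt, hK]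
      linear_combination (w1 * w2) * hδF

end Run7.h131.AD
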