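import Mathlib

/-!
# Project AD (helper131): the Lam–Litt conjecture for functions with an algebraic addition theorem

`w = (w_1, …, w_s)`, power series over `ℚ` with a rational addition theorem
`M_i(w(x), w(y)) · w_i(x + y) = N_i(w(x), w(y))`, `M_i(w(0), w(0)) ≠ 0` (all functions on commutative algebraic groups
over `ℚ`, restricted to a one-parameter subgroup: exponentials, elliptic and abelian functions, Weierstrass zeta …).
`f = P(w)/Q(w)`, `Q(w(0)) ≠ 0`.  If `a_p, …, a_(p+T)` are integral at `p` for almost all `p` (each `T`) then `f` is a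
rational function.  (`w_1 = z` is allowed: `S_Z`.)

IDEA.  `O` = local ring of the `P(w)/Q(w)`, `O_p` = the same with `p`-integral polynomials.  A point derivation
`d : O → ℚ` (tangent vector at the origin of the group) gives the invariant derivation `δ = del d`,
`δ g = ∑_k d(D^k g) x^k/k!`; it commutes with `D = d/dz` for trivial reasons, and `δ w_i = ∑_j d(w_j) v_ij` with
`v_ij ∈ O` by the addition theorem.  Modulo `p` the operator `D^p` is a derivation, and the addition theorem gives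
`D^p w_i ≡ ∑_j c_j v_ij` modulo `p O_p`, `c_j = (D^p w_j)(0)`.  If `a_p, …, a_(p+T)` are integral then `D^p f ≡ 0` to order
`T` modulo `p`, hence (finitely many linear conditions) `c ≡ τ` modulo `p` with a tangent vector `τ` such that the
invariant derivation `δ` of `τ` kills `f`.  Then `D^p g = p h`, `δ h = 0` for every `g ∈ O_p` with `δ g = 0`, so
`D^(pm) f ∈ p^m O_p` and the denominators of `a_k` grow exponentially only; `f` is meromorphic in the plane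
(`w(2x)` is rational in `w(x)`), so it is rational by Borel's theorem.

RULES.  Every piece `S_XXX` is a closed Prop with its complete proof in the doc string.  Deliver
`theorem t_XXX : S_XXX` (or with other pieces as hypotheses, as allowed in the doc string, e.g.
`theorem t_XXX (h1 : S_RNG) (h2 : S_VID) : S_XXX`) in `Pool/Agent/Run7/<you>/AD/XXX.lean`, your own namespace,
`open Run7.h131.AD`.  Land it yourself.
-/

set_option autoImplicit false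

namespace Run7.h131.AD

/-- power series over `ℚ` -/
abbrev PS := PowerSeries ℚ

/-- `x` is integral at `p` -/
def ZI (p : ℕ) (x : ℚ) : Prop := ∃ a b : ℤ, ¬ ((p : ℤ) ∣ b) ∧ x = (a : ℚ) / (b : ℚ)

/-- `x` is divisible by `t` at `p` -/
def ZD (p : ℕ) (t x : ℚ) : Prop := ∃ y : ℚ, ZI p y ∧ x = t * y

/-- `x` is a unit at `p` -/
def ZU (p : ℕ) (x : ℚ) : Prop := x ≠ 0 ∧ ZI p x ∧ ZI p x⁻¹

/-- polynomials with coefficients integral at `p` -/
def PI (p : ℕ) {σ : Type} (P : MvPolynomial σ ℚ) : Prop := ∀ m, ZI p (MvPolynomial.coeff m P)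

/-- the constant coefficient -/
noncomputable def ev (g : PS) : ℚ := PowerSeries.constantCoeff g

/-- the values at `0` -/
noncomputable def c0 {s : ℕ} (w : Fin s → PS) (i : Fin s) : ℚ := ev (w i)

/-- the derivative -/
noncomputable def D (g : PS) : PS := PowerSeries.derivative ℚ g

/-- Series in two variables: `PowerSeries PS`, the OUTER variable is `x`, the INNER one is `y` (the coefficient of `x^k`
is a series in `y`).  `tay g = g(x + y) = ∑_k x^k (D^k g)(y)/k!`. -/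
noncomputable def tay (g : PS) : PowerSeries PS :=
  PowerSeries.mk fun k => PowerSeries.C ((k.factorial : ℚ)⁻¹) * D^[k] g

/-- `g(x)` -/
noncomputable def inX (g : PS) : PowerSeries PS := PowerSeries.mk fun k => PowerSeries.C (PowerSeries.coeff k g)

/-- `g(y)` -/
noncomputable def inY (g : PS) : PowerSeries PS := PowerSeries.C g

/-- the point `(w(x), w(y))` -/
noncomputable def pt2 {s : ℕ} (w : Fin s → PS) : Fin s ⊕ Fin s → PowerSeries PS :=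
  Sum.elim (fun i => inX (w i)) (fun i => inY (w i))

/-- the point `(w(x), w(0))` -/
noncomputable def pt1 {s : ℕ} (w : Fin s → PS) : Fin s ⊕ Fin s → PS :=
  Sum.elim w (fun i => PowerSeries.C (c0 w i))

/-- the point `(w(0), w(0))` -/
noncomputable def pt0 {s : ℕ} (w : Fin s → PS) : Fin s ⊕ Fin s → ℚ := Sum.elim (c0 w) (c0 w)

/-- **the addition theorem** `M_i(w(x), w(y)) w_i(x+y) = N_i(w(x), w(y))` -/
structure AddThm {s : ℕ} (w : Fin s → PS) (N M : Fin s → MvPolynomial (Fin s ⊕ Fin s) ℚ) : Prop where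
  unit : ∀ i, MvPolynomial.eval (pt0 w) (M i) ≠ 0
  add : ∀ i, MvPolynomial.aeval (pt2 w) (M i) * tay (w i) = MvPolynomial.aeval (pt2 w) (N i)

/-- the local ring `O` of the `P(w)/Q(w)`, `Q(w(0)) ≠ 0` -/
def OQ {s : ℕ} (w : Fin s → PS) : Set PS :=
  {g | ∃ P Q : MvPolynomial (Fin s) ℚ, MvPolynomial.eval (c0 w) Q ≠ 0 ∧
    MvPolynomial.aeval w Q * g = MvPolynomial.aeval w P}

/-- the local ring `O_p` -/
def OP (p : ℕ) {s : ℕ} (w : Fin s → PS) : Set PS :=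
  {g | ∃ P Q : MvPolynomial (Fin s) ℚ, PI p P ∧ PI p Q ∧ ZU p (MvPolynomial.eval (c0 w) Q) ∧
    MvPolynomial.aeval w Q * g = MvPolynomial.aeval w P}

/-- the prime `p` is good for `w`, `N`, `M` -/
structure Good (p : ℕ) {s : ℕ} (w : Fin s → PS) (N M : Fin s → MvPolynomial (Fin s ⊕ Fin s) ℚ) : Prop where
  prime : p.Prime
  c : ∀ i, ZI p (c0 w i)
  c1 : ∀ i, ZI p (ev (D (w i)))
  hN : ∀ i, PI p (N i)
  hM : ∀ i, PI p (M i)
  unit : ∀ i, ZU p (MvPolynomial.eval (pt0 w) (M i))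

/-- `v_ij = (∂N_i/∂Y_j - w_i ∂M_i/∂Y_j)/M_i` at the point `(w(x), w(0))` -/
noncomputable def vv {s : ℕ} (w : Fin s → PS) (N M : Fin s → MvPolynomial (Fin s ⊕ Fin s) ℚ) (i j : Fin s) : PS :=
  (MvPolynomial.aeval (pt1 w) (MvPolynomial.pderiv (Sum.inr j) (N i)) -
    w i * MvPolynomial.aeval (pt1 w) (MvPolynomial.pderiv (Sum.inr j) (M i))) *
    (MvPolynomial.aeval (pt1 w) (M i))⁻¹

/-- `d` is a point derivation (at `0`) on the set `A` of power series -/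
structure PtDer (A : Set PS) (d : PS → ℚ) : Prop where
  add : ∀ g ∈ A, ∀ h ∈ A, d (g + h) = d g + d h
  mul : ∀ g ∈ A, ∀ h ∈ A, d (g * h) = ev g * d h + ev h * d g
  const : ∀ x : ℚ, d (PowerSeries.C x) = 0

/-- the invariant derivation `δ g = ∑_k d(D^k g) x^k / k!` -/
noncomputable def del (d : PS → ℚ) (g : PS) : PS := PowerSeries.mk fun k => d (D^[k] g) / (k.factorial : ℚ)

/-- `(D^p w_j)(0)` -/
noncomputable def cp (p : ℕ) {s : ℕ} (w : Fin s → PS) (j : Fin s) : ℚ := ev (D^[p] (w j))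

/-- the tangent space: `∑_j τ_j (∂P/∂X_j)(w(0)) = 0` for all `P` with `P(w) = 0` -/
def TT {s : ℕ} (w : Fin s → PS) : Set (Fin s → ℚ) :=
  {τ | ∀ P : MvPolynomial (Fin s) ℚ, MvPolynomial.aeval w P = 0 →
    ∑ j, τ j * MvPolynomial.eval (c0 w) (MvPolynomial.pderiv j P) = 0}

/-- `th_j = ∑_i ((∂_i P)(w) - f (∂_i Q)(w)) v_ij / Q(w)`, for `f = P(w)/Q(w)` -/
noncomputable def th {s : ℕ} (w : Fin s → PS) (N M : Fin s → MvPolynomial (Fin s ⊕ Fin s) ℚ)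
    (f : PS) (P Q : MvPolynomial (Fin s) ℚ) (j : Fin s) : PS :=
  (∑ i, (MvPolynomial.aeval w (MvPolynomial.pderiv i P) - f * MvPolynomial.aeval w (MvPolynomial.pderiv i Q)) *
    vv w N M i j) * (MvPolynomial.aeval w Q)⁻¹

/-- **Piece ZZZ** (small, 60–100 lines).  The numbers integral at a prime `p` form a ring, in which `p`-divisibility is
additive; inverses; almost all primes are good for a given number; polynomials with `p`-integral coefficients form a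
ring closed under `pderiv` and have `p`-integral values at `p`-integral points. -/
def S_ZZZ : Prop :=
  (∀ p : ℕ, p.Prime → (∃ S : Subring ℚ, (S : Set ℚ) = {x | ZI p x}) ∧ (ZI p ((p : ℚ) ⁻¹) → False) ∧
    (∀ k : ℕ, k < p → ZI p ((k.factorial : ℚ)⁻¹)) ∧ (∀ x : ℚ, ZI p x ↔ ¬ p ∣ x.den)) ∧
  (∀ x : ℚ, ∃ p0 : ℕ, ∀ p : ℕ, p0 ≤ p → p.Prime → ZI p x) ∧
  (∀ x : ℚ, x ≠ 0 → ∃ p0 : ℕ, ∀ p : ℕ, p0 ≤ p → p.Prime → ZU p x) ∧
  (∀ (σ : Type) (P : MvPolynomial σ ℚ), ∃ p0 : ℕ, ∀ p : ℕ, p0 ≤ p → p.Prime → PI p P) ∧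
  (∀ (p : ℕ) (σ : Type), p.Prime → (∃ S : Subring (MvPolynomial σ ℚ), (S : Set (MvPolynomial σ ℚ)) = {P | PI p P} ∧
    (∀ x : ℚ, ZI p x → MvPolynomial.C x ∈ S) ∧ ∀ i, MvPolynomial.X i ∈ S)) ∧
  (∀ (p : ℕ) (σ : Type) (P : MvPolynomial σ ℚ) (i : σ), p.Prime → PI p P → PI p (MvPolynomial.pderiv i P)) ∧
  (∀ (p : ℕ) (σ τ : Type) (P : MvPolynomial σ ℚ) (e : σ → MvPolynomial τ ℚ), p.Prime → PI p P → (∀ i, PI p (e i)) →
    PI p (MvPolynomial.bind₁ e P)) ∧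
  (∀ (p : ℕ) (σ : Type) (P : MvPolynomial σ ℚ) (c : σ → ℚ), p.Prime → PI p P → (∀ i, ZI p (c i)) →
    ZI p (MvPolynomial.eval c P))

/-- **Piece RNG** (may use `S_ZZZ`; 80–120 lines).  `O` and `O_p` are rings, closed under inverses of elements with
invertible constant coefficient.  Proof: `Q₁ g₁ = P₁`, `Q₂ g₂ = P₂` give `Q₁Q₂ (g₁+g₂) = Q₂P₁ + Q₁P₂`,
`Q₁Q₂ g₁g₂ = P₁P₂`; if `ev g` is a unit then `P g⁻¹ = Q` (`g * g⁻¹ = 1`), and `P(c) = Q(c) ev g` (take constant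
coefficients; `ev (aeval w P) = eval (c0 w) P`) is a unit. -/
def S_RNG : Prop :=
  (∀ (s : ℕ) (w : Fin s → PS), ∃ S : Subring PS, (S : Set PS) = OQ w ∧ (∀ x : ℚ, PowerSeries.C x ∈ S) ∧
    (∀ i, w i ∈ S) ∧ ∀ g ∈ S, ev g ≠ 0 → g⁻¹ ∈ S) ∧
  (∀ (p s : ℕ) (w : Fin s → PS), p.Prime → (∀ i, ZI p (c0 w i)) →
    ∃ S : Subring PS, (S : Set PS) = OP p w ∧ (∀ x : ℚ, ZI p x → PowerSeries.C x ∈ S) ∧
      (∀ i, w i ∈ S) ∧ (∀ g ∈ S, ZI p (ev g)) ∧ (∀ g ∈ S, g ∈ OQ w) ∧ ∀ g ∈ S, ZU p (ev g) → g⁻¹ ∈ S)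

/-- **Piece VID** (no hypotheses, 120–180 lines).  The formula for the invariant derivation.
Proof.  Let `Â ⊂ PowerSeries PS` be the set of `E` all of whose coefficients `coeff k E` are in `A`: a subring.  For
`E ∈ Â` put `d̂ E = mk (k ↦ d (coeff k E)) ∈ PS`, and for all `E` `ε̂ E = mk (k ↦ ev (coeff k E))` (a ring homomorphism
`PowerSeries PS → PS`, `PowerSeries.map` of `constantCoeff`).  On `Â`: `d̂` is additive and
`d̂(EF) = ε̂(E) d̂(F) + ε̂(F) d̂(E)` (coefficients are finite sums over the antidiagonal; `d` of a finite sum of elements of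
`A`).  `d̂(inX g) = 0`, `ε̂(inX g) = g`, `d̂(inY g) = C (d g)`, `ε̂(inY g) = C (ev g)`.  By induction on the polynomial `H`
(`MvPolynomial.induction_on`): `H(pt2 w) ∈ Â`, `ε̂(H(pt2 w)) = H(pt1 w)` and
`d̂(H(pt2 w)) = ∑_j C (d (w j)) * (∂H/∂Y_j)(pt1 w)`.  Moreover `tay (w i) ∈ Â`, `ε̂(tay g) = g`
(`coeff k`: `ev (D^k g)/k! = coeff k g`) and `d̂(tay (w i)) = del d (w i)` (`d (C x * g) = x d g`).  Apply `d̂` to the
addition theorem: `M_i(pt1) · del d w_i + w_i · ∑_j C(d w_j) (∂_j M_i)(pt1) = ∑_j C(d w_j) (∂_j N_i)(pt1)`, and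
`M_i(pt1)` has constant coefficient `M_i(pt0) ≠ 0`, so it is invertible. -/
def S_VID : Prop :=
  ∀ (s : ℕ) (w : Fin s → PS) (N M : Fin s → MvPolynomial (Fin s ⊕ Fin s) ℚ), AddThm w N M →
    ∀ A : Subring PS, (∀ x : ℚ, PowerSeries.C x ∈ A) → (∀ i k, D^[k] (w i) ∈ A) →
    ∀ d : PS → ℚ, PtDer (A : Set PS) d →
    ∀ i, del d (w i) = ∑ j, PowerSeries.C (d (w j)) * vv w N M i j

/-- **Piece DCL** (may use `S_ZZZ S_RNG S_VID`; 120–150 lines).  `D w_i = ∑_j w_j'(0) v_ij`; `O` and `O_p` are closed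
under `D` and contain `v_ij`.
Proof.  `S_VID` with `A = ⊤` and `d g = ev (D g)` (`ev (D (g h)) = ev g ev (D h) + ev h ev (D g)`); here
`del d g = D g` since `ev (D^(k+1) g)/k! = (k+1) coeff (k+1) g`.  `v_ij ∈ O`: the numerator is a polynomial in `w` with
coefficients polynomials in the `c0 w j` (`MvPolynomial.bind₁ (Sum.elim X (C ∘ c0 w))` of the polynomials
`∂_j N_i`, `∂_j M_i`, `M_i`), the denominator has constant coefficient `M_i(pt0)`, a unit (at `p`).  For `g ∈ O`,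
`Q g = P`: `Q · D g = ∑_i (∂_i P)(w) D w_i - g ∑_i (∂_i Q)(w) D w_i ∈ O` and `Q(w)⁻¹ ∈ O`; the same for `O_p`. -/
def S_DCL : Prop :=
  ∀ (s : ℕ) (w : Fin s → PS) (N M : Fin s → MvPolynomial (Fin s ⊕ Fin s) ℚ), AddThm w N M →
    (∀ i, D (w i) = ∑ j, PowerSeries.C (ev (D (w j))) * vv w N M i j) ∧
    (∀ i j, vv w N M i j ∈ OQ w) ∧ (∀ g ∈ OQ w, D g ∈ OQ w) ∧
    (∀ p : ℕ, Good p w N M → (∀ i j, vv w N M i j ∈ OP p w) ∧ ∀ g ∈ OP p w, D g ∈ OP p w)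

/-- **Piece LP** (no hypotheses, 60–100 lines).  `D^p` is a derivation modulo `p`, with the error in `S`.
Proof: `D^n(ab) = ∑_i C(n,i) D^i a D^(n-i) b` (induction) and `p ∣ C(p,i)` for `0 < i < p`. -/
def S_LP : Prop :=
  ∀ (R : Type) [CommRing R] (Δ : R → R) (S : Subring R) (p : ℕ), p.Prime →
    (∀ a b, Δ (a + b) = Δ a + Δ b) → (∀ a b, Δ (a * b) = a * Δ b + b * Δ a) → (∀ a ∈ S, Δ a ∈ S) →
    ∀ a ∈ S, ∀ b ∈ S, ∃ r ∈ S, Δ^[p] (a * b) = a * Δ^[p] b + b * Δ^[p] a + (p : R) * r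

/-- **Piece PMW** (may use `S_ZZZ S_RNG S_DCL S_LP`; 200–250 lines).  The power map: `D^p w_i ≡ ∑_j c_j v_ij` modulo
`p O_p`.
Proof.  Let `R2 ⊂ PowerSeries PS` be the set of `E` with `Q(pt2 w) E = P(pt2 w)` for `p`-integral polynomials `P, Q` in
`Fin s ⊕ Fin s` variables with `Q(pt0 w)` a unit at `p`.  It is a subring (as in `S_RNG`), it contains `inX g`, `inY g`
for `g ∈ O_p`, and `tay (w i)` (addition theorem).  Let `∂E = mk (k ↦ D (coeff k E))` (derivative in `y`): a derivation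
of `PowerSeries PS`, `∂(inX g) = 0`, `∂(inY g) = inY (D g)`, `∂(tay g) = tay (D g)`.  `R2` is closed under `∂`: for a
`p`-integral polynomial `H`, `∂(H(pt2 w)) = ∑_j (∂H/∂Y_j)(pt2 w) inY (D (w j)) ∈ R2`, and
`Q(pt2) ∂E = ∂(P(pt2)) - E ∂(Q(pt2))` with `Q(pt2)⁻¹ ∈ R2` (`Q(pt2)` is a unit of `PowerSeries PS`, its constant
coefficient being a unit of `PS`).  By `S_LP` (`S = R2`) and induction on `H` (over the ring of `p`-integral
polynomials: write `H = ∑ monomials`): `∂^p(H(pt2 w)) ≡ ∑_j (∂H/∂Y_j)(pt2 w) inY (D^p (w j))` modulo `p R2`.  Apply this to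
both sides of `M_i(pt2) tay(w_i) = N_i(pt2)`:
`M_i(pt2) tay(D^p w_i) + tay(w_i) ∑_j (∂_j M_i)(pt2) inY(D^p w_j) ≡ ∑_j (∂_j N_i)(pt2) inY(D^p w_j)` modulo `p R2`.
Apply the ring homomorphism `ε̂ E = mk (k ↦ ev (coeff k E))`: `ε̂(R2) ⊂ O_p` (`Q(w, c) ε̂E = P(w, c)`), `ε̂(tay g) = g`,
`ε̂(inY g) = C (ev g)`, `ε̂(H(pt2 w)) = H(pt1 w)`; multiply by `M_i(pt1 w)⁻¹ ∈ O_p`. -/
def S_PMW : Prop :=
  ∀ (s : ℕ) (w : Fin s → PS) (N M : Fin s → MvPolynomial (Fin s ⊕ Fin s) ℚ), AddThm w N M →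
    ∀ p : ℕ, Good p w N M → ∀ i, ∃ h ∈ OP p w,
      D^[p] (w i) - ∑ j, PowerSeries.C (cp p w j) * vv w N M i j = PowerSeries.C (p : ℚ) * h

/-- **Piece DELC** (may use `S_RNG S_DCL`; 60–90 lines).  `del d` is a derivation which commutes with `D`.
Proof: `d (D^k (g h)) = ∑_i C(k,i) d (D^i g · D^(k-i) h) = ∑_i C(k,i) (ev (D^i g) d (D^(k-i) h) + …)`, and
`ev (D^i g)/i! = coeff i g`.  `del d (D g)` and `D (del d g)` have the coefficients `d (D^(k+1) g)/k!`. -/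
def S_DELC : Prop :=
  ∀ (s : ℕ) (w : Fin s → PS) (N M : Fin s → MvPolynomial (Fin s ⊕ Fin s) ℚ), AddThm w N M →
    ∀ d : PS → ℚ, PtDer (OQ w) d →
    (∀ g ∈ OQ w, ∀ h ∈ OQ w, del d (g + h) = del d g + del d h) ∧
    (∀ g ∈ OQ w, ∀ h ∈ OQ w, del d (g * h) = g * del d h + h * del d g) ∧
    (∀ x : ℚ, del d (PowerSeries.C x) = 0) ∧
    (∀ x : ℚ, ∀ g ∈ OQ w, del d (PowerSeries.C x * g) = PowerSeries.C x * del d g) ∧
    (∀ g : PS, del d (D g) = D (del d g))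

/-- **Piece PMO** (may use `S_ZZZ S_RNG S_VID S_DCL S_LP S_PMW S_DELC`; 120–150 lines).  If `c_j ≡ d(w_j)` modulo `p` then
`D^p ≡ del d` modulo `p` on `O_p`.
Proof.  `del d (w i) = ∑_j C (d (w j)) v_ij ∈ O_p` by `S_VID` (`A = O`).  For `g ∈ O_p`, `Q g = P` with `p`-integral
polynomials: `Q(w) del d g = ∑_i ((∂_i P)(w) - g (∂_i Q)(w)) del d (w i)`, so `del d g ∈ O_p`.  The operator
`E = D^p - del d` maps `O_p` to itself, is additive, `E(gh) ≡ g E(h) + h E(g)` modulo `p O_p` (`S_LP` with `S = O_p`,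
`S_DELC`), `E(C x) = 0`, and `E(w i) ≡ ∑_j C(c_j - d(w_j)) v_ij ≡ 0` (`S_PMW`).  Hence `E(H(w)) ≡ 0` for every
`p`-integral polynomial `H`, and `Q(w) E(g) ≡ E(P(w)) - g E(Q(w)) ≡ 0`; `Q(w)⁻¹ ∈ O_p`. -/
def S_PMO : Prop :=
  ∀ (s : ℕ) (w : Fin s → PS) (N M : Fin s → MvPolynomial (Fin s ⊕ Fin s) ℚ), AddThm w N M →
    ∀ p : ℕ, Good p w N M → ∀ d : PS → ℚ, PtDer (OQ w) d → (∀ j, ZI p (d (w j))) →
    (∀ j, ZD p p (cp p w j - d (w j))) →
    ∀ g ∈ OP p w, del d g ∈ OP p w ∧ ∃ h ∈ OP p w, D^[p] g - del d g = PowerSeries.C (p : ℚ) * h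

/-- **Piece ITER** (may use `S_ZZZ S_RNG S_DCL S_DELC S_PMO`; 80–110 lines).  If moreover `del d f = 0` then
`k! a_k ∈ p^(k/p) ℤ_(p)`.
Proof.  Claim: for all `m` there is `h ∈ O_p` with `del d h = 0`, `D^(p m) f = C(p^m) h`.  Induction: `D^p h = p h'`,
`h' ∈ O_p` by `S_PMO`, and `p · del d h' = del d (D^p h) = D^p (del d h) = 0`.  For `k = p m + r`:
`D^k f = C(p^m) D^r h`, and `k! a_k = ev (D^k f)`, `ev (D^r h) ∈ ℤ_(p)`. -/
def S_ITER : Prop :=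
  ∀ (s : ℕ) (w : Fin s → PS) (N M : Fin s → MvPolynomial (Fin s ⊕ Fin s) ℚ), AddThm w N M →
    ∀ p : ℕ, Good p w N M → ∀ d : PS → ℚ, PtDer (OQ w) d → (∀ j, ZI p (d (w j))) →
    (∀ j, ZD p p (cp p w j - d (w j))) →
    ∀ f ∈ OP p w, del d f = 0 →
      ∀ k : ℕ, ZD p ((p : ℚ) ^ (k / p)) ((k.factorial : ℚ) * PowerSeries.coeff k f)

/-- **Piece TB** (may use `S_RNG`; 70–100 lines).  Tangent vectors are point derivations.
Proof.  For `P` put `dP = ∑_j τ_j (∂_j P)(c)`.  For `g ∈ O` choose `P, Q` with `Q g = P`, `Q(c) ≠ 0` and put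
`d g = (dP - ev g · dQ)/Q(c)` (and `d g = 0` for `g ∉ O`).  Independence: if also `Q₁ g = P₁` then `H = Q₁ P - Q P₁` has
`H(w) = 0`, so `dH = 0`, that is `Q₁(c) dP + P(c) dQ₁ = Q(c) dP₁ + P₁(c) dQ`; with `P(c) = Q(c) ev g`,
`P₁(c) = Q₁(c) ev g` the two values agree.  The sum and the product: use the representations of `S_RNG`. -/
def S_TB : Prop :=
  ∀ (s : ℕ) (w : Fin s → PS) (τ : Fin s → ℚ), τ ∈ TT w →
    ∃ d : PS → ℚ, PtDer (OQ w) d ∧ ∀ i, d (w i) = τ i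

/-- **Piece PTT** (may use `S_ZZZ S_RNG S_DCL S_LP`; 60–80 lines).  `(c_j)` is a tangent vector modulo `p`.
Proof.  By `S_LP` with `S = O_p`: `D^p (H(w)) ≡ ∑_j (∂_j H)(w) D^p (w j)` modulo `p O_p` for `p`-integral `H` (induction);
take `H = P`, and the constant coefficient. -/
def S_PTT : Prop :=
  ∀ (s : ℕ) (w : Fin s → PS) (N M : Fin s → MvPolynomial (Fin s ⊕ Fin s) ℚ), AddThm w N M →
    ∀ p : ℕ, Good p w N M → ∀ P : MvPolynomial (Fin s) ℚ, PI p P → MvPolynomial.aeval w P = 0 →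
      ZD p p (∑ j, cp p w j * MvPolynomial.eval (c0 w) (MvPolynomial.pderiv j P))

/-- **Piece TH** (may use `S_ZZZ S_RNG S_VID S_DCL S_LP S_PMW S_DELC`; 100–140 lines).  The linear forms `th_j` of `f`.
Proof.  (a) `Q(w) del d f + f del d (Q(w)) = del d (P(w))` and `del d (H(w)) = ∑_i (∂_i H)(w) del d (w i)`,
`del d (w i) = ∑_j C(d(w_j)) v_ij` (`S_VID` with `A = O`).  (b) The same with `D^p` modulo `p O_p` (`S_LP`, `S_PMW`). -/
def S_TH : Prop :=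
  ∀ (s : ℕ) (w : Fin s → PS) (N M : Fin s → MvPolynomial (Fin s ⊕ Fin s) ℚ), AddThm w N M →
    ∀ (f : PS) (P Q : MvPolynomial (Fin s) ℚ), MvPolynomial.eval (c0 w) Q ≠ 0 →
      MvPolynomial.aeval w Q * f = MvPolynomial.aeval w P →
    (∀ d : PS → ℚ, PtDer (OQ w) d → del d f = ∑ j, PowerSeries.C (d (w j)) * th w N M f P Q j) ∧
    (∀ p : ℕ, Good p w N M → PI p P → PI p Q → ZU p (MvPolynomial.eval (c0 w) Q) →
      ∃ h ∈ OP p w, D^[p] f - ∑ j, PowerSeries.C (cp p w j) * th w N M f P Q j = PowerSeries.C (p : ℚ) * h)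

/-- **Piece LIN** (no hypotheses or `S_ZZZ`; 80–120 lines).  Linear conditions modulo `p` for almost all `p`.
Proof.  Choose `F ⊂ Λ` finite, a basis of the span of `Λ` over `ℚ` (`exists_linearIndependent`), `r = |F|`.  Extend `F` by
unit vectors to a basis of `ℚ^s`, and let `B` be the invertible matrix with these rows (first `r` rows `F`).  For `p`
large `B` and `B⁻¹` are `p`-integral.  Given `c`, let `y = B c`; the first `r` entries are divisible by `p`; let `y'` be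
`y` with the first `r` entries replaced by `0`, and `τ = B⁻¹ y'`.  Then `τ` is `p`-integral, `F τ = 0` (so `Λ τ = 0`),
`c - τ = B⁻¹ (y - y')` is divisible by `p`. -/
def S_LIN : Prop :=
  ∀ (s : ℕ) (Λ : Set (Fin s → ℚ)), ∃ (F : Finset (Fin s → ℚ)) (p0 : ℕ), (F : Set (Fin s → ℚ)) ⊆ Λ ∧
    ∀ p : ℕ, p0 ≤ p → p.Prime → ∀ c : Fin s → ℚ, (∀ j, ZI p (c j)) →
      (∀ l ∈ F, ZD p p (∑ j, c j * l j)) →
      ∃ τ : Fin s → ℚ, (∀ j, ZI p (τ j)) ∧ (∀ l ∈ Λ, ∑ j, τ j * l j = 0) ∧ ∀ j, ZD p p (c j - τ j)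

/-- **Piece GD** (may use everything above; 100–130 lines).  Good primes give a point derivation which kills `f`.
Proof.  `Λ` = the vectors `((∂_j P)(c))_j` for `P(w) = 0`, and `(coeff k (th_j))_j` for `k ∈ ℕ`; `F`, `p0` from `S_LIN`.
Choose for every `l ∈ F` such a `P` or `k`; `T` at least all these `k`; `p0` so large that `w, N, M` are good, the
finitely many `P` and the two polynomials of `f` are `p`-integral, `Q(c)` a unit, `p0 > T + 1`.  `c_j = cp p w j` is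
`p`-integral (`O_p` is closed under `D`).  The conditions of `S_LIN`: for `P` by `S_PTT`; for `k ≤ T`: by `S_TH`(b)
`coeff k (D^p f) - ∑_j c_j coeff k (th_j) = p coeff k h`, where `k! coeff k h ∈ ℤ_(p)` (`ev (D^k h)`), `k < p`, and
`coeff k (D^p f) = ((k+p)!/k!) a_(k+p)` is divisible by `p`, since `a_(k+p)` is integral.  So there is `τ`; it is in `TT w`,
`d` from `S_TB`, and `del d f = ∑_j τ_j th_j = 0` by `S_TH`(a). -/
def S_GD : Prop :=
  ∀ (s : ℕ) (w : Fin s → PS) (N M : Fin s → MvPolynomial (Fin s ⊕ Fin s) ℚ), AddThm w N M →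
    ∀ f ∈ OQ w, ∃ T p0 : ℕ, ∀ p : ℕ, p0 ≤ p → p.Prime → Good p w N M ∧ f ∈ OP p w ∧
      ((∀ k : ℕ, p ≤ k → k ≤ p + T → ZI p (PowerSeries.coeff k f)) →
        ∃ d : PS → ℚ, PtDer (OQ w) d ∧ (∀ j, ZI p (d (w j))) ∧ (∀ j, ZD p p (cp p w j - d (w j))) ∧ del d f = 0)

/-- **Piece GB** (may use `S_RNG S_DCL`; 150–200 lines).  Crude bounds for the coefficients of the elements of `O`.
Proof.  Let `Q₀ = Q · ∏_i M_i(X, c)` (`g = P(w)/Q(w)`), `q = 1/Q₀(w)`, `u = (w_1, …, w_s, q)`.  By `S_DCL`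
`D w_i = ∑_j w_j'(0) v_ij` is a polynomial `R_i(u)` over `ℚ`, `D q = -q² ∑_i (∂_i Q₀)(w) D w_i` as well, and `g` is a
polynomial `G(u)`.  Let `𝒟` be the derivation of `ℚ[U]` with `𝒟 U_i = R_i`; then `D^k g = (𝒟^k G)(u)` and
`k! coeff k g = (𝒟^k G)(u(0))`.  Let `b` be a common denominator of all `R_i`, `G` and `u_i(0)`, `e ≥` the degrees of the
`R_i`, `m = deg G`: `b^(k+1) 𝒟^k G` is integral of degree `≤ m + k e`, so its value at `u(0)` is integral after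
multiplication by `b^(m+ke)`: take `B = b^(m+e+2)`.  With `‖P‖ = ∑ |coefficients|`, `A ≥ ‖R_i‖`:
`‖𝒟 P‖ ≤ (deg P) A ‖P‖`, so `‖𝒟^k G‖ ≤ ‖G‖ A^k ∏_(j<k) (m + j e) ≤ C₁^(k+1) k!`, and `|u_i(0)| ≤ C₂` gives
`|k! coeff k g| ≤ C^(k+1) k!`.  (There are related lemmas in Pool/Agent/TH252/ExpT/Hur.lean: `hur_abs`.) -/
def S_GB : Prop :=
  ∀ (s : ℕ) (w : Fin s → PS) (N M : Fin s → MvPolynomial (Fin s ⊕ Fin s) ℚ), AddThm w N M → ∀ g ∈ OQ w,
    (∃ B : ℕ, 1 ≤ B ∧ ∀ k : ℕ, ∃ n : ℤ, ((B : ℚ) ^ (k + 1) * (k.factorial : ℚ)) * PowerSeries.coeff k g = n) ∧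
    (∃ C : ℝ, 1 ≤ C ∧ ∀ k : ℕ, |((PowerSeries.coeff k g : ℚ) : ℝ)| ≤ C ^ (k + 1))

/-- **Piece DEN** (no hypotheses, pure arithmetic; 150–200 lines).  Exponential bound for the common denominators.
Proof.  `d_n = ∏_(p ≤ n or p ≤ p0 or p ∣ B) p^(e_p)`, `e_p = max_(k ≤ n) v_p(den a_k)` (`d_n` = the least common multiple
of the denominators of `a_0, …, a_n`).  For every `p`: `v_p(den a_k) ≤ (k+1) v_p(B) + v_p(k!)`; for `p ≥ p0` it is
`≤ v_p(k!)`, and for `p ≥ p0` not in `bad` it is `≤ v_p(k!) - k/p = v_p((k/p)!)` (Legendre), so `≤ k/(p (p-1))`.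
Always `v_p(k!) ≤ k/(p-1)`.  So `log d_n ≤ (n+1) log B + n ∑_(p<p0) log p/(p-1) + n ∑_p log p/(p(p-1)) +
n ∑_(p ∈ bad) log p/(p-1)`, and `1/(p-1) ≤ 2/p`. -/
def S_DEN : Prop :=
  ∀ (a : ℕ → ℚ) (B p0 : ℕ) (bad : Set ℕ), 1 ≤ B →
    (∀ k : ℕ, ∃ n : ℤ, ((B : ℚ) ^ (k + 1) * (k.factorial : ℚ)) * a k = n) →
    (∀ p : ℕ, p0 ≤ p → p.Prime → ∀ k : ℕ, ZI p ((k.factorial : ℚ) * a k)) →
    (∀ p : ℕ, p0 ≤ p → p.Prime → p ∉ bad → ∀ k : ℕ, ZD p ((p : ℚ) ^ (k / p)) ((k.factorial : ℚ) * a k)) →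
    (Summable fun p : {p : ℕ // p.Prime ∧ p ∈ bad} => Real.log (p : ℕ) / (p : ℕ)) →
    ∃ C : ℝ, 1 ≤ C ∧ ∀ n : ℕ, ∃ d : ℕ, 1 ≤ d ∧ (d : ℝ) ≤ C ^ (n + 1) ∧ ∀ k ≤ n, ∃ z : ℤ, (d : ℚ) * a k = z

/-- the coefficients of `G` are `O(R^(-k))` -/
def Rad (R : ℝ) (G : PowerSeries ℂ) : Prop := ∃ K : ℝ, ∀ k : ℕ, ‖PowerSeries.coeff k G‖ * R ^ k ≤ K

/-- `g` is a quotient of two power series with radius at least `R` -/
def MerR (R : ℝ) (g : PS) : Prop :=
  ∃ G H : PowerSeries ℂ, G ≠ 0 ∧ Rad R G ∧ Rad R H ∧ G * PowerSeries.map (algebraMap ℚ ℂ) g = H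

/-- **Piece DIA** (no hypotheses, 60–90 lines).  The duplication formula.
Proof.  `Δ : PowerSeries PS → PS`, `Δ E = ∑_k X^k coeff k E` (coefficient `n`: `∑_(k ≤ n) coeff (n-k) (coeff k E)`) is a
ring homomorphism with `Δ(inX g) = g`, `Δ(inY g) = g`, and `Δ(tay g) = rescale 2 g`: coefficient `n`:
`∑_k coeff (n-k) (D^k g)/k! = ∑_k C(n,k) a_n = 2^n a_n`.  Apply it to the addition theorem. -/
def S_DIA : Prop :=
  ∀ (s : ℕ) (w : Fin s → PS) (N M : Fin s → MvPolynomial (Fin s ⊕ Fin s) ℚ), AddThm w N M → ∀ i,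
    MvPolynomial.aeval (Sum.elim w w) (M i) * PowerSeries.rescale 2 (w i) = MvPolynomial.aeval (Sum.elim w w) (N i)

/-- **Piece MER** (may use `S_DIA`; 120–160 lines).  The functions `w_i`, and all elements of `O`, are meromorphic in the
plane.
Proof.  `Rad R` is closed under sums, and products up to a loss: `Rad R G`, `Rad R H` imply `Rad R' (G H)` for
`0 < R' < R`; `Rad R G` implies `Rad R' G` for `0 < R' ≤ R`.  `MerR R (w i)` for `R < 1/C`: `G = 1`.  Suppose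
`MerR R (w i)` for all `i`, `G_i w_i = H_i`.  With `𝒢 = ∏ G_i` and `e` large `A = 𝒢^e M_i(w, w)`, `B = 𝒢^e N_i(w, w)` are
polynomials in the `G_j, H_j`, so `Rad R'` with `R' = 3R/4`, `A ≠ 0` (the constant coefficient of `M_i(w,w)` is
`M_i(pt0 w) ≠ 0`), and `A · (rescale 2 w_i) = B` by `S_DIA`; apply `rescale (1/2)`: `MerR (3R/2) (w i)`.  Iterate.
For `g ∈ O`: `𝒢^e Q(w) · g = 𝒢^e P(w)`. -/
def S_MER : Prop :=
  ∀ (s : ℕ) (w : Fin s → PS) (N M : Fin s → MvPolynomial (Fin s ⊕ Fin s) ℚ), AddThm w N M →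
    (∃ C : ℝ, 1 ≤ C ∧ ∀ i k, |((PowerSeries.coeff k (w i) : ℚ) : ℝ)| ≤ C ^ (k + 1)) →
    ∀ g ∈ OQ w, ∀ R : ℝ, 0 < R → MerR R g

/-- **Piece BOR** (no hypotheses, 150–220 lines).  Borel's theorem.
Proof.  Let `C ≥ 1` be as in both hypotheses.  For `L ≥ 1` Siegel's lemma (Mathlib `Int.Matrix.exists_ne_zero_int_vec_norm_le`, or the
pigeonhole principle) with the `L` unknown coefficients of `Q` (degree `< L`) and the `⌊L/2⌋` equations
`coeff k (d_n Q f) = 0`, `L ≤ k < n := L + ⌊L/2⌋`, whose coefficients are integers of size `≤ C₁^n`, gives `Q ≠ 0` with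
integer coefficients `≤ L C₁^n ≤ C₂^n`; let `P` be the truncation of `Q f` at degree `< L`, with rational coefficients
of size `≤ C₃^n`.  If `Q f ≠ P` let `α x^t` be the leading term of `Q f - P`, `t ≥ n`: `d_t α` is a
nonzero integer, `|α| ≥ C^(-t-1)`.  With `G f = H`, `Rad R`, `G = g_m x^m + …`, `g_m ≠ 0`: the coefficient of
`x^(t+m)` in `G (Q f - P) = Q H - P G` is `g_m α`, and it is `≤ 2 L C₃^n K R^(L-t-m)` for `R ≥ 1`; since
`t ≥ n ≥ 3L/2 - 1` we have `t - L ≥ t/3 - 1`.  So `C^(-t-1) |g_m| ≤ 2 L K C₃^t R^(1 - m - t/3)`;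
take `R > (2 C C₃)^3` first (`C, C₃` do not depend on `R`) and `L → ∞`: contradiction.  So `Q f = P` for large `L`. -/
def S_BOR : Prop :=
  ∀ f : PS,
    (∃ C : ℝ, 1 ≤ C ∧ ∀ k : ℕ, |((PowerSeries.coeff k f : ℚ) : ℝ)| ≤ C ^ (k + 1)) →
    (∃ C : ℝ, 1 ≤ C ∧ ∀ n : ℕ, ∃ d : ℕ, 1 ≤ d ∧ (d : ℝ) ≤ C ^ (n + 1) ∧
      ∀ k ≤ n, ∃ z : ℤ, (d : ℚ) * PowerSeries.coeff k f = z) →
    (∀ R : ℝ, 0 < R → MerR R f) →
    ∃ P Q : Polynomial ℚ, Q ≠ 0 ∧ (Q : PowerSeries ℚ) * f = P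

/-- **Piece MAIN** (may use everything above; 40–60 lines; helper131).  -/
def S_MAIN : Prop :=
  ∀ (s : ℕ) (w : Fin s → PS) (N M : Fin s → MvPolynomial (Fin s ⊕ Fin s) ℚ), AddThm w N M → ∀ f ∈ OQ w,
    (∀ T : ℕ, Summable fun p : {p : ℕ // p.Prime ∧ ¬ ∀ k : ℕ, p ≤ k → k ≤ p + T → ZI p (PowerSeries.coeff k f)} =>
      Real.log (p : ℕ) / (p : ℕ)) →
    ∃ P Q : Polynomial ℚ, Q ≠ 0 ∧ (Q : PowerSeries ℚ) * f = P

/-- **Piece Z** (no hypotheses, 50–80 lines).  `z` can be added to the functions `w`.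
Proof.  `tay X = inX X + inY X` (coefficients: `D X = 1`, `D^k X = 0` for `k ≥ 2`); `N_0 = X_(inl 0) + X_(inr 0)`, `M_0 = 1`,
and `N_(i+1)`, `M_(i+1)` are the `rename`d polynomials `N_i`, `M_i` (`Sum.map Fin.succ Fin.succ`). -/
def S_Z : Prop :=
  ∀ (s : ℕ) (w : Fin s → PS) (N M : Fin s → MvPolynomial (Fin s ⊕ Fin s) ℚ), AddThm w N M →
    ∃ N' M', AddThm (Fin.cons (PowerSeries.X : PS) w : Fin (s + 1) → PS) N' M'

/-- **Piece CAT** (no hypotheses, 60–90 lines).  Two systems together.  Proof: `rename`d polynomials, as in `S_Z`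
(`Fin.append`, `Fin.addCases`, `Fin.castAdd`, `Fin.natAdd`). -/
def S_CAT : Prop :=
  ∀ (s t : ℕ) (w : Fin s → PS) (N M : Fin s → MvPolynomial (Fin s ⊕ Fin s) ℚ)
    (w₁ : Fin t → PS) (N₁ M₁ : Fin t → MvPolynomial (Fin t ⊕ Fin t) ℚ), AddThm w N M → AddThm w₁ N₁ M₁ →
    ∃ N' M', AddThm (Fin.append w w₁) N' M'

/-- **Piece EXS** (no hypotheses, 80–120 lines).  Exponentials, sine and cosine.
Proof.  (a) `tay E = C(E(0)⁻¹) E(x) E(y)`: the coefficient of `x^k` of both sides is `c^k/k! · E(y)`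
(`D^k E = c^k E`, `coeff k E = c^k/k! · E(0)`).  (b) `u(0) = 0`, `v(0) = 1`, `u' = v`, `v' = b u`:
`u(x+y) = u(x)v(y) + v(x)u(y)`, `v(x+y) = v(x)v(y) + b u(x)u(y)`; compare the coefficients of `x^k` by induction on `k`
in steps of two: `D² u = b u`, so `D^(2m) u = b^m u`, `D^(2m+1) u = b^m v`, and the same for `v`. -/
def S_EXS : Prop :=
  (∀ (c : ℚ) (E : PS), ev E ≠ 0 → D E = PowerSeries.C c * E → ∃ N M, AddThm (fun _ : Fin 1 => E) N M) ∧
  (∀ (b : ℚ) (u v : PS), ev u = 0 → ev v = 1 → D u = v → D v = PowerSeries.C b * u → ∃ N M, AddThm ![u, v] N M)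

/-- **Piece ELL** (no hypotheses, 120–180 lines).  Elliptic functions: `w(0) = 0`, `w'(0) = 1`, `w'' = a w + 2 b w³`
(`w'² = 1 + a w² + b w⁴`; `a = -(1+k²)`, `b = k²`: the function sn).
Proof (Euler).  Let `u = w'`; `u² = 1 + a w² + b w⁴` (derivative of the difference is `0`, value at `0`).  In
`PowerSeries PS` write `w₁ = inX w`, `w₂ = inY w`, `u₁ = inX u`, `u₂ = inY u`, `δ = 1 - b w₁² w₂²` (a unit),
`F = (w₁ u₂ + w₂ u₁)/δ`.  Let `∂_x` (the derivative in the outer variable, `PowerSeries.derivative PS`) and `∂_y`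
(coefficientwise `D`); both are derivations with `∂_x w₁ = u₁`, `∂_x u₁ = a w₁ + 2 b w₁³`, `∂_y w₂ = u₂`, ….
`δ² ∂_x F = (u₁u₂ + w₂(a w₁ + 2b w₁³)) δ + 2 b w₁ u₁ w₂² (w₁u₂ + w₂u₁)`; replacing `u₁²` by `1 + a w₁² + b w₁⁴` this is
`u₁u₂ (1 + b w₁² w₂²) + a w₁ w₂ (1 + b w₁² w₂²) + 2 b w₁ w₂ (w₁² + w₂²)` (check: `ring` after the substitution),
symmetric in the two variables, so `∂_x F = ∂_y F =: G`.  A series `F` with `∂_x F = ∂_y F` is `tay` of its restriction to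
`x = 0` (`coeff k` in `x`: `(k+1) coeff (k+1) F = D (coeff k F)`), here `w`.  So `tay w = F`, and
`tay u = tay (D w) = ∂_y (tay w) = G = (…)/δ²`: numerators and denominators are polynomials in
`(w(x), u(x), w(y), u(y))`, and `δ = 1` at the origin. -/
def S_ELL : Prop :=
  ∀ (a b : ℚ) (w : PS), ev w = 0 → ev (D w) = 1 →
    D (D w) = PowerSeries.C a * w + PowerSeries.C (2 * b) * w ^ 3 → ∃ N M, AddThm ![w, D w] N M

end Run7.h131.AD
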