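import Pool.Agent.Run7.h131.AD.Fin
import Pool.Agent.Run7.h131.AD.ElZ
import Pool.Agent.Run7.h915.AD.ZZZ
import Pool.Agent.Run7.h915.AD.RNG
import Pool.Agent.Run7.h915.AD.TB
import Pool.Agent.Run7.h862.AD.VID
import Pool.Agent.Run7.h958.AD.DCL
import Pool.Agent.Run7.h468.AD.LP
import Pool.Agent.Run7.h468.AD.Z
import Pool.Agent.Run7.h468.AD.EXS
import Pool.Agent.Run7.h497.AD.CAT
import Pool.Agent.Run7.h497.AD.LIN
import Pool.Agent.Run7.h440.AD.DIA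
import Pool.Agent.Run7.h721.AD.PMW
import Pool.Agent.Run7.h774.AD.DELC
import Pool.Agent.Run7.h774.AD.PTT
import Pool.Agent.Run7.h774.AD.TH
import Pool.Agent.Run7.h393.AD.PMO
import Pool.Agent.Run7.h255.AD.ITER
import Pool.Agent.Run7.h255.AD.GD
import Pool.Agent.Run7.h440.AD.GB
import Pool.Agent.Run7.h743.AD.DEN
import Pool.Agent.Run7.h743.AD.BOR
import Pool.Agent.Run7.h99.AD.MER

/-!
# Project AD: all pieces together
-/

set_option autoImplicit false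

namespace Run7.h131.AD

theorem a_ZZZ : S_ZZZ := Run7.h915.AD.t_ZZZ
theorem a_RNG : S_RNG := Run7.h915.AD.t_RNG a_ZZZ
theorem a_VID : S_VID := Run7.h862.AD.t_VID
theorem a_DCL : S_DCL := Run7.h958.AD.t_DCL a_ZZZ a_RNG a_VID
theorem a_LP : S_LP := Run7.h468.AD.t_LP
theorem a_PMW : S_PMW := Run7.h721.AD.t_PMW a_ZZZ a_RNG a_DCL a_LP
theorem a_DELC : S_DELC := Pool.Agent.Run7.h774.AD.t_DELC a_RNG a_DCL
theorem a_PMO : S_PMO := Run7.h393.AD.t_PMO a_ZZZ a_RNG a_VID a_DCL a_LP a_PMW a_DELC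
theorem a_ITER : S_ITER := Run7.h255.AD.t_ITER a_RNG a_DCL a_DELC a_PMO
theorem a_PTT : S_PTT := Pool.Agent.Run7.h774.AD.t_PTT a_ZZZ a_RNG a_DCL a_LP
theorem a_TH : S_TH := Pool.Agent.Run7.h774.AD.t_TH a_ZZZ a_RNG a_VID a_DCL a_LP a_PMW a_DELC
theorem a_GD : S_GD := Run7.h255.AD.t_GD a_ZZZ a_RNG a_DCL a_PTT a_TH Run7.h915.AD.t_TB Run7.h497.AD.t_LIN
theorem a_GB : S_GB := Run7.h440.AD.t_GB a_DCL
theorem a_MER : S_MER := Run7.h99.AD.t_MER Run7.h440.AD.Dia.t_DIA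

/-- the main theorem, unconditionally -/
theorem a_MAIN2 : S_MAIN2 :=
  t_MAIN2 a_RNG a_DCL a_ITER a_GD a_GB Run7.h743.AD.t_DEN a_MER Run7.h743.AD.t_BOR

theorem a_Z : S_Z := Run7.h468.AD.t_Z
theorem a_CAT : S_CAT := Run7.h497.AD.t_CAT
theorem a_EXS : S_EXS := Run7.h468.AD.t_EXS

end Run7.h131.AD
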