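import Pool.Agent.Run7.h131.AD.Main2
import Pool.Agent.Run7.h131.PP.Comp
import Pool.Agent.R340.LL.Eis

/-!
# Property 3 implies algebraicity, with an algebraic change of variable
-/

set_option autoImplicit false

namespace Run7.h131.AD

open PowerSeries

/-- property 3 -/
def P3 (f : PS) : Prop :=
  ∃ ω : ℕ → ℤ,
    (∀ M : ℝ, ∃ B : ℕ, ∀ p : ℕ, p.Prime → B ≤ p → M ≤ (ω p : ℝ) / (p : ℝ)) ∧
    ∀ p : ℕ, p.Prime → ∀ k : ℕ, (k : ℤ) ≤ ω p → ZI p (PowerSeries.coeff k f)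

/-- property 2 -/
def P2 (f : PS) : Prop :=
  ∃ N : ℕ, 1 ≤ N ∧ ∀ k : ℕ, ∃ (a : ℤ) (m : ℕ), PowerSeries.coeff k f = (a : ℚ) / ((N : ℚ) ^ m)

lemma ZI_of_div {p N : ℕ} (hp : p.Prime) (hN : ¬ p ∣ N) (a : ℤ) (m : ℕ) : ZI p ((a : ℚ) / ((N : ℚ) ^ m)) := by
  refine ⟨a, (N : ℤ) ^ m, ?_, by push_cast; rfl⟩
  intro h
  have h1 : (p : ℤ) ∣ (N : ℤ) := Int.Prime.dvd_pow' hp h
  exact hN (by exact_mod_cast h1)

theorem fin_alg (hZZZ : S_ZZZ) (h2 : S_MAIN2) (hZ : S_Z) {s : ℕ} (w : Fin s → PS)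
    (N M : Fin s → MvPolynomial (Fin s ⊕ Fin s) ℚ) (hA : AddThm w N M)
    (ρ : PS) (hρ : IsAlgebraic (Polynomial ℚ) ρ) (h0 : constantCoeff ρ = 0) (hne : ρ ≠ 0) (f : PS)
    (hf : (subst ρ f : PS) ∈ OQ (Fin.cons (PowerSeries.X : PS) w : Fin (s + 1) → PS)) (h3 : P3 f) :
    IsAlgebraic (Polynomial ℚ) f := by
  obtain ⟨N', M', hA'⟩ := hZ s w N M hA
  obtain ⟨T, hT⟩ := h2 (s + 1) _ N' M' hA' _ hf
  obtain ⟨ω, hω1, hω2⟩ := h3
  obtain ⟨n, hn1, hn⟩ := Pool.Agent.R340.LL.Q2_of_alg hρ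
  obtain ⟨B, hB⟩ := hω1 2
  -- all the windows of `f ∘ ρ` at large primes are integral
  have key : ∀ p : ℕ, p.Prime → B + T + n + 1 ≤ p → ∀ k : ℕ, k ≤ p + T →
      ZI p (PowerSeries.coeff k (subst ρ f : PS)) := by
    intro p hp hpB k hk
    obtain ⟨⟨S, hS⟩, -⟩ := hZZZ.1 p hp
    have hmem : ∀ x : ℚ, x ∈ S ↔ ZI p x := by
      intro x
      rw [← SetLike.mem_coe, hS]
      rfl
    have hpn : ¬ p ∣ n := fun h => by
      have := Nat.le_of_dvd (by omega) h
      omega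
    have hρS : ∀ (d j : ℕ), PowerSeries.coeff j (ρ ^ d) ∈ S := by
      intro d
      induction d with
      | zero =>
        intro j
        rw [pow_zero, PowerSeries.coeff_one]
        split_ifs
        · exact S.one_mem
        · exact S.zero_mem
      | succ d ih =>
        intro j
        rw [pow_succ, PowerSeries.coeff_mul]
        refine S.sum_mem fun x _ => S.mul_mem (ih _) ?_
        obtain ⟨a, m, e⟩ := hn x.2
        rw [e, hmem]
        exact ZI_of_div hp hpn a m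
    have e : coeff k (subst ρ f : PS) = _ := PP.coeff_subst_le h0 k
    rw [e, ← hmem]
    refine S.sum_mem fun d hd => S.mul_mem ?_ (hρS _ _)
    rw [hmem]
    refine hω2 p hp d ?_
    rw [Finset.mem_range] at hd
    have h4 := hB p hp (by omega)
    have hp0 : (0 : ℝ) < p := by exact_mod_cast hp.pos
    rw [le_div_iff₀ hp0] at h4
    have h5 : ((d : ℕ) : ℝ) ≤ 2 * p := by
      have : d ≤ 2 * p := by omega
      exact_mod_cast this
    have h6 : ((d : ℕ) : ℝ) ≤ (ω p : ℝ) := by linarith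
    exact_mod_cast h6
  have hfin : Finite {p : ℕ // p.Prime ∧ ¬ ∀ k : ℕ, p ≤ k → k ≤ p + T →
      ZI p (PowerSeries.coeff k (subst ρ f : PS))} := by
    have h5 : Set.Finite {p : ℕ | p.Prime ∧ ¬ ∀ k : ℕ, p ≤ k → k ≤ p + T →
        ZI p (PowerSeries.coeff k (subst ρ f : PS))} := by
      refine (Set.finite_lt_nat (B + T + n + 1)).subset ?_
      rintro p ⟨hp, hbad⟩
      rw [Set.mem_setOf_eq]
      by_contra hlt
      exact hbad fun k _ hk => key p hp (by omega) k hk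
    exact h5.to_subtype
  obtain ⟨P, Q, hQ, hPQ⟩ := hT (Summable.of_finite)
  -- `f ∘ ρ` is rational
  have halg : IsAlgebraic (Polynomial ℚ) (subst ρ f : PS) := by
    refine ⟨Polynomial.C Q * Polynomial.X - Polynomial.C P, ?_, ?_⟩
    · intro h1
      have h2 := congrArg (fun q => Polynomial.coeff q 1) h1
      simp only [Polynomial.coeff_sub, Polynomial.coeff_C_mul, Polynomial.coeff_X_one, mul_one,
        Polynomial.coeff_C_succ, sub_zero, Polynomial.coeff_zero] at h2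
      exact hQ h2
    · rw [map_sub, map_mul, Polynomial.aeval_C, Polynomial.aeval_C, Polynomial.aeval_X]
      have e1 : algebraMap (Polynomial ℚ) PS Q = (Q : PS) := by rw [LL.algebraMap_polyK]
      have e2 : algebraMap (Polynomial ℚ) PS P = (P : PS) := by rw [LL.algebraMap_polyK]
      rw [e1, e2, hPQ, sub_self]
  exact PP.alg_of_cmp h0 hne (PP.alg_swap h0 hne hρ halg)

end Run7.h131.AD
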