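import Pool.Agent.Run7.h131.AD.Main

/-!
# The main theorem with one window length `T`, and with `z` among the functions
-/

set_option autoImplicit false

namespace Run7.h131.AD

/-- the main theorem, with one `T` -/
def S_MAIN2 : Prop :=
  ∀ (s : ℕ) (w : Fin s → PS) (N M : Fin s → MvPolynomial (Fin s ⊕ Fin s) ℚ), AddThm w N M → ∀ f ∈ OQ w,
    ∃ T : ℕ, (Summable fun p : {p : ℕ // p.Prime ∧ ¬ ∀ k : ℕ, p ≤ k → k ≤ p + T → ZI p (PowerSeries.coeff k f)} =>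
      Real.log (p : ℕ) / (p : ℕ)) →
    ∃ P Q : Polynomial ℚ, Q ≠ 0 ∧ (Q : PowerSeries ℚ) * f = P

theorem t_MAIN2 (hRNG : S_RNG) (hDCL : S_DCL) (hITER : S_ITER) (hGD : S_GD) (hGB : S_GB)
    (hDEN : S_DEN) (hMER : S_MER) (hBOR : S_BOR) : S_MAIN2 := by
  intro s w N M hA f hf
  obtain ⟨T, p0, hg⟩ := hGD s w N M hA f hf
  refine ⟨T, fun hT => ?_⟩
  obtain ⟨⟨B, hB, hBk⟩, C, hC, hCk⟩ := hGB s w N M hA f hf
  obtain ⟨-, -, hDO, hDP⟩ := hDCL s w N M hA
  -- all the derivatives of `f` are in `O_p`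
  have hint : ∀ p : ℕ, p0 ≤ p → p.Prime → ∀ k : ℕ, ZI p ((k.factorial : ℚ) * PowerSeries.coeff k f) := by
    intro p hp hpp k
    obtain ⟨hgood, hfP, -⟩ := hg p hp hpp
    obtain ⟨S, hS, -, -, hSI, -⟩ := hRNG.2 p s w hpp hgood.c
    have hmem : ∀ k : ℕ, D^[k] f ∈ OP p w := by
      intro k
      induction k with
      | zero => exact hfP
      | succ k ih =>
        rw [Function.iterate_succ_apply']
        exact (hDP p hgood).2 _ ih
    rw [← ev_iter]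
    apply hSI
    have := hmem k
    rw [← hS] at this
    exact this
  have hstep : ∀ p : ℕ, p0 ≤ p → p.Prime →
      p ∉ {p : ℕ | ¬ ∀ k : ℕ, p ≤ k → k ≤ p + T → ZI p (PowerSeries.coeff k f)} →
      ∀ k : ℕ, ZD p ((p : ℚ) ^ (k / p)) ((k.factorial : ℚ) * PowerSeries.coeff k f) := by
    intro p hp hpp hbad k
    obtain ⟨hgood, hfP, hd⟩ := hg p hp hpp
    have hb : ∀ k : ℕ, p ≤ k → k ≤ p + T → ZI p (PowerSeries.coeff k f) := by
      by_contra hcon
      exact hbad hcon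
    obtain ⟨d, hd1, hd2, hd3, hd4⟩ := hd hb
    exact hITER s w N M hA p hgood d hd1 hd2 hd3 f hfP hd4 k
  obtain hden := hDEN (fun k => PowerSeries.coeff k f) B p0 _ hB hBk hint hstep hT
  -- growth of the `w_i`
  have hw : ∃ C : ℝ, 1 ≤ C ∧ ∀ i k, |((PowerSeries.coeff k (w i) : ℚ) : ℝ)| ≤ C ^ (k + 1) := by
    obtain ⟨S, hS, -, hSw, -⟩ := hRNG.1 s w
    have h1 : ∀ i, ∃ C : ℝ, 1 ≤ C ∧ ∀ k : ℕ, |((PowerSeries.coeff k (w i) : ℚ) : ℝ)| ≤ C ^ (k + 1) := by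
      intro i
      have : w i ∈ OQ w := by rw [← hS]; exact hSw i
      exact (hGB s w N M hA _ this).2
    choose Cf hCf1 hCf2 using h1
    refine ⟨1 + ∑ i, Cf i, ?_, ?_⟩
    · have : 0 ≤ ∑ i, Cf i := Finset.sum_nonneg fun i _ => by linarith [hCf1 i]
      linarith
    · intro i k
      refine (hCf2 i k).trans (pow_le_pow_left₀ (by linarith [hCf1 i]) ?_ _)
      have : Cf i ≤ ∑ i, Cf i :=
        Finset.single_le_sum (f := Cf) (fun i _ => by linarith [hCf1 i]) (Finset.mem_univ i)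
      linarith
  exact hBOR f ⟨C, hC, hCk⟩ hden (fun R hR => hMER s w N M hA hw f hf R hR)

end Run7.h131.AD
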